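import Pool.Agent.D0H15.L0.Sel
import Pool.Agent.D0H15.L9.Fin
import Pool.Agent.D0H69.L0.DefsQ

/-!
# Project L0: the group of points and the `3`-part of the Tate-Shafarevich group
-/

set_option autoImplicit false
set_option linter.unusedVariables false
set_option linter.unusedSectionVars false

open scoped Classical

namespace Pool.Agent.D0H15.L0

open NumberField IsDedekindDomain WeierstrassCurve
open Pool.Agent.Y692.QS (Ei w nr toC)
open Pool.Agent.Y715.T.Gi Pool.Agent.Y715.T.Nr Pool.Agent.Y715.T.Df Pool.Agent.Y715.T.Ell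
open Pool.Agent.Y703.CT
open Pool.Agent.Y696.CTK (ED parts)
open Pool.Agent.D0H69.L0

/-- there is a prime factor -/
lemma nonempty_of {J : Type} [Fintype J] {π : J → Ei} {e : J → ZMod 3} (hk : KerM π e) :
    Nonempty J := by
  by_contra hJ
  rw [not_nonempty_iff] at hJ
  have h := (hk (fun _ => 0) 1 (fun j => (hJ.false j).elim) (by simp)).2
  exact one_ne_zero h

/-- L0-FIN over a number field -/
theorem finM (hLOC : S_LOC3M) : S_FINM := by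
  intro K _ _ j J _ π e hD hN hk
  obtain ⟨j₀⟩ := nonempty_of hk
  have hne : pD π e ≠ 0 := pD_ne hD
  have hs := fun (i₀ : QB) (hi : i₀ ^ 2 + i₀ + 1 = 0) (u : QB) (a : GK i₀ → ZMod 3)
    (hT : Tw hi (pD π e) u a) =>
    sel hLOC Pool.Agent.N883.FF.ram Pool.Agent.N883.FF.unr J π e hD hN hk i₀ hi u a hT
  have hm := parts.mwt parts.trf K j _ hne fun i₀ hi u a hT =>
    Pool.Agent.Y155.CT.t_MWK _ hne i₀ hi u a hT (Pool.Agent.Y319.CT.a_ne j₀ hD hT)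
      (hs i₀ hi u a hT)
  exact ⟨hm.1, hm.2, parts.sht parts.trf K j _ hne fun i₀ hi u a hT =>
    Pool.Agent.Y155.CT.t_SHK _ hne i₀ hi u a hT (hs i₀ hi u a hT)⟩

/-- L0-FIN over `ℚ` -/
theorem finQ (hLOC : S_LOC3M) {D : ℕ} {J : Type} [Fintype J] {π : J → Ei} {e : J → ZMod 3}
    (hD : Dt π e) (hN : Ntl π e) (hd : (D : Ei) = pD π e ∨ (D : Ei) = -pD π e) (hd0 : D ≠ 0)
    (hk : KerM π e) :
    Finite (EQ (WD (D : ℤ))).toAffine.Point ∧
    padicValNat 3 (Nat.card (EQ (WD (D : ℤ))).toAffine.Point) = 1 ∧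
    ∀ (n : ℕ) (x : Pool.Agent.TH841.SH.D.Sha (EQ (WD (D : ℤ)))), 3 ^ n • x = 0 → x = 0 := by
  obtain ⟨j₀⟩ := nonempty_of hk
  have hne : pD π e ≠ 0 := pD_ne hD
  obtain ⟨i₀, hi⟩ := Pool.Agent.D0H43.L3.exists_i
  obtain ⟨u, a, hT⟩ := Pool.Agent.Y319.CT.exists_tw hi hne
  have hs := sel hLOC Pool.Agent.N883.FF.ram Pool.Agent.N883.FF.unr J π e hD hN hk i₀ hi u a hT
  have h1 := Pool.Agent.Y155.CT.t_SHK _ hne i₀ hi u a hT hs
  have h2 := Pool.Agent.Y155.CT.t_MWK _ hne i₀ hi u a hT (Pool.Agent.Y319.CT.a_ne j₀ hD hT) hs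
  have hD0 : (D : ℤ) ≠ 0 := by exact_mod_cast hd0
  have e9 : ((D : ℤ) : Ei) = (D : Ei) := Int.cast_natCast D
  obtain ⟨u', hT'⟩ : ∃ u' : QB, Tw hi ((D : ℤ) : Ei) u' a := by
    rcases hd with h | h
    · refine ⟨u, ?_⟩
      rw [e9, h]
      exact hT
    · refine ⟨-u, ?_⟩
      rw [e9, h]
      exact Pool.Agent.D0H15.L9.tw_neg hT
  exact Pool.Agent.Y692.CT.desq _ hD0 i₀ hi u' a hT' h1 h2

/-- the class `Cl0` over `ℚ` -/
theorem finCl (hLOC : S_LOC3M) (hE : S_EXI0) {D : ℕ} (hC : Cl0 D) {J : Type} [Fintype J]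
    {π : J → Ei} {e : J → ZMod 3} (hD : Dt π e)
    (hd : (D : Ei) = pD π e ∨ (D : Ei) = -pD π e) (hk : KerM π e) :
    Finite (EQ (WD (D : ℤ))).toAffine.Point ∧
    padicValNat 3 (Nat.card (EQ (WD (D : ℤ))).toAffine.Point) = 1 ∧
    ∀ (n : ℕ) (x : Pool.Agent.TH841.SH.D.Sha (EQ (WD (D : ℤ)))), 3 ^ n • x = 0 → x = 0 :=
  finQ hLOC hD ((hE D hC).2 J π e hD hd).1 hd hC.1 hk

end Pool.Agent.D0H15.L0
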