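import Pool.Agent.D0H69.L0.StmS
import Pool.Agent.D0H15.L9.Sel
import Pool.Agent.D0H43.L3.Chi

/-!
# Project L0: the Selmer group of `∏ π_j ^ (e j)`, norm `1` modulo `9`
-/

set_option autoImplicit false
set_option linter.unusedSectionVars false

open scoped Classical

namespace Pool.Agent.D0H15.L0

open Pool.Agent.Y692.QS (Ei w nr nr_nonneg nr_zero_iff isUnit_iff w_cube nr_mod)
open Pool.Agent.Y715.T.Gi Pool.Agent.Y715.T.Nr Pool.Agent.Y715.T.Df
open Pool.Agent.Y715.T.Rec (cs nn)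
open Pool.Agent.Y715.T.RecG
open Pool.Agent.Y715.T.Sel (fac kc_mul kc_one kc_congr kc_pow kc_cube kc_uniq kc_cancel kc_unit
  kc_exp ex_root root_ne iota_sq iota_ev odd_of not_dvd_of_unr resid_kc exists_emb3)
open Pool.Agent.Y703.CT
open Pool.Agent.Y48.CT.SEL (not_lam not_assoc_lam p0 pr0 esq not_dvd_prod prod_form cf_prod
  support)
open Pool.Agent.N883.FF (nq)
open Pool.Agent.N883.FF.Sel (w_unit w_ne unit_w cf_unit cs_w unit_norm)
open Pool.Agent.D0H43.L3 (yq)
open Pool.Agent.D0H43.L3.Sel (gen gen_ne kc_gen gen_mul_pow cf_gen)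
open Pool.Agent.D0H15.L9.Sel (cop_of nq_pow nq_prod)
open Pool.Agent.D0H69.L0

variable {J : Type} [Fintype J] {π : J → Ei} {e : J → ZMod 3}
variable {i₀ : QB} {hi : i₀ ^ 2 + i₀ + 1 = 0}

lemma yq_pow {x : Ei} (h : IsCoprime x 3) (n : ℕ) : yq (x ^ n) = n * yq x := by
  induction n with
  | zero =>
    rw [pow_zero, Pool.Agent.D0H43.L3.Chi.yq_unit isUnit_one, Nat.cast_zero, zero_mul]
  | succ n ih =>
    rw [pow_succ, Pool.Agent.D0H43.L3.Chi.yq_mul h.pow_left h, ih]
    push_cast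
    ring

lemma yq_prod (hD : Dt π e) (y : J → ℕ) :
    yq (∏ j, π j ^ y j) = ∑ j, (y j : ZMod 3) * yq (π j) := by
  have hc : ∀ j, IsCoprime (π j) 3 := fun j => cop_of (hD.pq j).three
  have h1 : ∀ S : Finset J, yq (∏ j ∈ S, π j ^ y j) = ∑ j ∈ S, (y j : ZMod 3) * yq (π j) := by
    intro S
    induction S using Finset.induction_on with
    | empty => simpa using Pool.Agent.D0H43.L3.Chi.yq_unit isUnit_one
    | insert a S haS ih =>
      rw [Finset.prod_insert haS, Finset.sum_insert haS,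
        Pool.Agent.D0H43.L3.Chi.yq_mul (hc a).pow_left
          (IsCoprime.prod_left fun j _ => (hc j).pow_left), ih, yq_pow (hc a)]
  exact h1 Finset.univ

lemma pD_eq : pD π e = gen π 0 0 (fun j => (e j).val) := by
  unfold gen pD
  rw [pow_zero, pow_zero, one_mul, one_mul]

lemma pD_ne (hD : Dt π e) : pD π e ≠ 0 := pr0 hD _

lemma pD_norm (hD : Dt π e) {p : ℕ} [Fact p.Prime]
    (ι : QB →ₐ[ℚ] PadicAlgCl p)
    (h : ∀ j, ¬ ‖ι (ev i₀ hi (π j))‖ < 1) : ¬ ‖ι (ev i₀ hi (pD π e))‖ < 1 := by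
  have h1 : ∀ j, ‖ι (ev i₀ hi (π j))‖ = 1 := by
    intro j
    refine le_antisymm ?_ (not_lt.1 (h j))
    rw [iota_ev]
    exact ev_le (iota_sq hi ι) _
  have h2 : ‖ι (ev i₀ hi (pD π e))‖ = 1 := by
    unfold pD
    rw [map_prod, map_prod, norm_prod]
    refine Finset.prod_eq_one fun j _ => ?_
    rw [map_pow, map_pow, norm_pow, h1, one_pow]
  rw [h2]
  exact lt_irrefl _

/-- the norm is `1` modulo `9` -/
lemma nr_nine (hD : Dt π e) (hN : Ntl π e) : (9 : ℤ) ∣ nr (pD π e) - 1 := by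
  have hc : IsCoprime (pD π e) 3 := cop_of (by
    obtain ⟨q, hq⟩ := prod_form hD (fun j => (e j).val)
    exact ⟨q, hq⟩)
  have h3 := Pool.Agent.N883.FF.Chi.nr_mod hc
  have hq : nq (pD π e) = 0 := by
    rw [pD, nq_prod hD, ← hN]
    refine Finset.sum_congr rfl fun k _ => ?_
    rw [ZMod.natCast_zmod_val]
  unfold nq at hq
  rw [ZMod.intCast_zmod_eq_zero_iff_dvd] at hq
  omega

/-- **L0-SEL.** -/
theorem sel : S_SELM := by
  intro hLOC hRAM hUNR J _ π e hD hNtl hker i₀ hi u a hTw h hc hm hloc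
  have hD0 := pD_ne hD
  -- the character `a`
  have hb : Kc hi (gen π 0 0 (fun j => (e j).val)) (fun σ => -a σ) := by
    have h1 : Kc hi (pD π e) (fun σ => -a σ) :=
      kc_of hi (root_ne (hi := hi) (z := pD π e) hD0 hTw.cube) hTw.cube hTw.act
    rwa [pD_eq] at h1
  -- the Kummer generator
  obtain ⟨z, hz, hzh⟩ := kum hi h hc hm
  obtain ⟨v₀, g, x, hu, ez⟩ := fac (π := π) z hz.1 (support hD hz hzh
    (fun p _ ι hp3 hpj τ σ hcc hτ => by
      obtain ⟨R, hR⟩ := hloc p ι
      exact (hUNR (pD π e) hD0 i₀ hi u a hTw h p ι hp3 (pD_norm hD ι hpj) R hR τ σ hcc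
        hτ).2))
  rw [ez] at hzh
  obtain ⟨ι₃⟩ := exists_emb3
  obtain ⟨q, hq⟩ := prod_form hD x
  have hq' : ∏ j, π j ^ x j = 1 + 3 * q := by rw [← hq]; ring
  -- the norm
  have h9 : (9 : ℤ) ∣ nr (pD π e) - 1 := nr_nine hD hNtl
  -- the condition at three
  obtain ⟨hg3, b, hv₀, hlev⟩ : 3 ∣ g ∧ ∃ b : ZMod 3, (v₀ = w ^ b.val ∨ v₀ = -w ^ b.val) ∧
      nq (1 + 3 * q) + b * yq (pD π e) = 0 := by
    obtain ⟨R, hR⟩ := hloc 3 ι₃
    have hzh' := hzh
    rw [hq'] at hzh'
    exact hLOC i₀ hi (pD π e) (prod_form hD _) h9 u a hTw h v₀ q g hu hzh' inferInstance ι₃ R hR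
  have hx : Kc hi (gen π b.val 0 x) h := by
    have hx1 : Kc hi (gen π b.val g x) h := by
      have h0 := gen_ne hD b.val g x
      have e1 : v₀ * lam ^ g * ∏ j, π j ^ x j = gen π b.val g x ∨
          v₀ * lam ^ g * ∏ j, π j ^ x j = -1 * gen π b.val g x := by
        unfold gen
        rcases hv₀ with hs | hs
        · left
          rw [hs]
          ring
        · right
          rw [hs]
          ring
      rcases e1 with e1 | e1
      · rwa [e1] at hzh
      · refine kc_unit (u := -1) h0 (Or.inr rfl) ?_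
        rwa [e1] at hzh
    refine kc_gen (p0 hD) rfl ?_ (fun j => rfl) hx1
    rw [Nat.cast_zero]
    exact (ZMod.natCast_eq_zero_iff _ _).2 hg3
  set v : J → ZMod 3 := fun j => x j * e j with hv
  have hxv : ∀ j, (x j : ZMod 3) = e j * v j := by
    intro j
    have := esq hD j
    calc (x j : ZMod 3) = x j * (e j * e j) := by rw [this, mul_one]
      _ = _ := by rw [hv]; ring
  have heq : ∀ j, ∑ k, e k * cs (π j) (π k) * (v k - v j) + b * nq (π j) = 0 := by
    intro j
    obtain ⟨p, hp, ι, hl⟩ := exists_emb hi (hD.pq j).prime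
    have hp3 := odd_of hi ι (hD.pq j).prime hl (not_assoc_lam (hD.pq j))
    obtain ⟨R, hR⟩ := hloc p ι
    have hpj := (hD.pq j).prime
    have h9 := (hD.pq j).norm
    have hndw : ¬ π j ∣ w := fun h1 => hpj.not_isUnit (isUnit_of_dvd_unit h1 w_unit)
    have hvallt : (e j).val < 3 := ZMod.val_lt _
    have hval0 : (e j).val ≠ 0 := by
      rw [Ne, ZMod.val_eq_zero]
      exact hD.e0 j
    have hdiv : π j ^ (e j).val ∣ pD π e := by
      unfold pD
      exact Finset.dvd_prod_of_mem (fun j => π j ^ (e j).val) (Finset.mem_univ j)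
    have hndiv : ¬ π j ^ ((e j).val + 1) ∣ pD π e := by
      intro h2
      unfold pD at h2
      rw [← Finset.mul_prod_erase Finset.univ (fun i => π i ^ (e i).val) (Finset.mem_univ j),
        pow_succ] at h2
      exact not_dvd_prod hD j _ ((mul_dvd_mul_iff_left (pow_ne_zero _ (p0 hD j))).1 h2)
    obtain ⟨ε, hε⟩ := hRAM (pD π e) (π j) (e j).val (hD.pq j).prime (hD.pq j).norm hdiv hndiv
      (by omega) i₀ hi u a hTw h p ι hl R hR
    -- the character that is trivial at `π j`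
    set n : ℕ := ε.val with hn
    have hn3 : (n : ZMod 3) = ε := ZMod.natCast_zmod_val _
    have hy := kc_mul (gen_ne hD b.val 0 x) (pow_ne_zero n (gen_ne hD _ _ _)) hx
      (kc_pow (gen_ne hD _ _ _) hb n)
    have hy1 : ∀ (τ : Au p) (σ : GK i₀), Cmp ι τ σ → h σ + n * -a σ = 0 := by
      intro τ σ hcc
      rw [hε τ σ hcc, hn3]
      ring
    rw [gen_mul_pow] at hy
    set y : J → ZMod 3 := fun k => x k + e k * ε with hydef
    have hy2 : Kc hi (gen π b.val (0 : ZMod 3).val (fun k => (y k).val))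
        (fun σ => h σ + n * -a σ) := by
      refine kc_gen (p0 hD) ?_ ?_ (fun k => ?_) hy
      · rw [zero_mul, add_zero]
      · rw [zero_mul, add_zero, ZMod.val_zero]
      · rw [ZMod.natCast_zmod_val, hydef]
        push_cast
        rw [hn3, ZMod.natCast_zmod_val]
    have hyj : y j = 0 := by
      have h1 := not_dvd_of_unr (cf_unit (w_unit.pow b.val) (cf_gen hD 0 y)) hy2 hp3 ι
        (hD.pq j).prime hl (fun τ σ hcc _ => hy1 τ σ hcc)
      by_contra hne
      apply h1
      refine Dvd.dvd.mul_left (Dvd.dvd.mul_left (dvd_trans (dvd_pow_self (π j) ?_)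
        (Finset.dvd_prod_of_mem (fun i => π i ^ (y i).val) (Finset.mem_univ j))) _) _
      rwa [Ne, ZMod.val_eq_zero]
    have hεv : ε = -v j := by
      have h1 : (x j : ZMod 3) + e j * ε = 0 := hyj
      have h2 := esq hD j
      rw [hxv j] at h1
      calc ε = (e j * e j) * ε := by rw [h2, one_mul]
        _ = e j * (e j * v j + e j * ε) - (e j * e j) * v j := by ring
        _ = _ := by rw [h1, h2]; ring
    have hyi : ∀ k, y k = e k * (v k - v j) := by
      intro k
      rw [hydef]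
      change (x k : ZMod 3) + e k * ε = _
      rw [hxv k, hεv]
      ring
    unfold gen at hy2
    have e2 : ∏ k, π k ^ (y k).val = ∏ k ∈ Finset.univ.erase j, π k ^ (y k).val := by
      rw [← Finset.mul_prod_erase Finset.univ (fun i => π i ^ (y i).val) (Finset.mem_univ j),
        hyj, ZMod.val_zero, pow_zero, one_mul]
    rw [e2, ZMod.val_zero, pow_zero, one_mul] at hy2
    have hcube := resid_kc hy2 hp3 ι (hD.pq j).prime hl hy1
    have hnd := not_dvd_prod hD j (fun i => (y i).val)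
    have hndwp : ¬ π j ∣ w ^ b.val := fun h1 => hndw (hpj.dvd_of_dvd_pow h1)
    have hnd0 : ¬ π j ∣ w ^ b.val * ∏ k ∈ Finset.univ.erase j, π k ^ (y k).val := by
      intro h1
      rcases hpj.dvd_or_dvd h1 with h2 | h2
      · exact hndwp h2
      · exact hnd h2
    have hcs := (cs_zero_iff hpj h9 hnd0).2 hcube
    have hnd1 : ∀ i ∈ Finset.univ.erase j, ¬ π j ∣ π i := fun i hij =>
      hD.nd i j (Finset.ne_of_mem_erase hij)
    rw [cs_mul hpj h9 hndwp hnd, cs_pow hpj h9 hndw, cs_w (hD.pq j),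
      cs_prod hpj h9 _ _ (fun i hij h1 => hnd1 i hij (hpj.dvd_of_dvd_pow h1)),
      ZMod.natCast_zmod_val] at hcs
    have hsum : ∑ k, e k * cs (π j) (π k) * (v k - v j) =
        ∑ k ∈ Finset.univ.erase j, cs (π j) (π k ^ (y k).val) := by
      rw [← Finset.add_sum_erase Finset.univ _ (Finset.mem_univ j), sub_self, mul_zero, zero_add]
      refine Finset.sum_congr rfl fun k hij => ?_
      rw [cs_pow hpj h9 (hnd1 k hij), ZMod.natCast_zmod_val, hyi k]
      ring
    rw [hsum]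
    linear_combination hcs
  -- the condition of level two
  have hlast : ∑ k, e k * v k * nq (π k) + b * ∑ k, e k * yq (π k) = 0 := by
    rw [← hq', pD, nq_prod hD, yq_prod hD] at hlev
    rw [← hlev]
    congr 1
    · refine Finset.sum_congr rfl fun k _ => ?_
      rw [hxv k]
    · congr 1
      refine Finset.sum_congr rfl fun k _ => ?_
      rw [ZMod.natCast_zmod_val]
  obtain ⟨hv0, hb0⟩ := hker v b heq hlast
  -- conclusion
  obtain ⟨ν, hν⟩ : ∃ ν : ZMod 3, ∀ j, v j = ν := by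
    rcases isEmpty_or_nonempty J with hJ | ⟨⟨j⟩⟩
    · exact ⟨0, fun j => (hJ.false j).elim⟩
    · exact ⟨v j, fun k => hv0 k j⟩
  have hx2 : Kc hi (gen π 0 0 (fun j => (e j).val) ^ ν.val) h := by
    have h1 := gen_mul_pow (π := π) 0 0 0 0 (fun _ => 0) (fun j => (e j).val) ν.val
    have h2 : gen π 0 0 (fun _ => 0) = 1 := by simp [gen]
    rw [h2, one_mul] at h1
    rw [h1]
    refine kc_gen (p0 hD) ?_ ?_ (fun j => ?_) hx
    · rw [hb0, ZMod.val_zero, zero_mul, add_zero]
    · rw [zero_mul, add_zero]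
    · rw [hxv j, hν j]
      push_cast
      rw [ZMod.natCast_zmod_val, ZMod.natCast_zmod_val, zero_add]
  refine ⟨-ν, fun σ => ?_⟩
  have h4 := kc_uniq (pow_ne_zero _ (gen_ne hD _ _ _)) hx2 (kc_pow (gen_ne hD _ _ _) hb ν.val) σ
  simp only [ZMod.natCast_zmod_val] at h4
  rw [h4]
  ring

end Pool.Agent.D0H15.L0
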